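import Mathlib

set_option autoImplicit false

open Matrix Polynomial

namespace Pool.Agent.Results.MP_69260a_co.CospectralPair

/-- The distance matrix of a graph, with real entries. -/
noncomputable def distMatrix {V : Type} (G : SimpleGraph V) : Matrix V V ℝ :=
  Matrix.of fun u v => (G.dist u v : ℝ)

theorem isHermitian_distMatrix {V : Type} (G : SimpleGraph V) :
    (distMatrix G).IsHermitian := by
  ext u v
  simp [distMatrix, SimpleGraph.dist_comm]

/-- The distance spectrum of a graph: the multiset of the eigenvalues of its distance matrix,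
each with its multiplicity. -/
noncomputable def distSpectrum {V : Type} [Fintype V] [DecidableEq V] (G : SimpleGraph V) :
    Multiset ℝ :=
  (Finset.univ : Finset V).val.map (isHermitian_distMatrix G).eigenvalues

theorem distSpectrum_eq_roots {V : Type} [Fintype V] [DecidableEq V] (G : SimpleGraph V) :
    distSpectrum G = (distMatrix G).charpoly.roots := by
  unfold distSpectrum
  rw [(isHermitian_distMatrix G).roots_charpoly_eq_eigenvalues]
  rfl

/-- A certificate for the distance function of a graph. -/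
theorem dist_of_certificate {V : Type} (G : SimpleGraph V) (D : V → V → ℕ)
    (h0 : ∀ v, D v v = 0)
    (hstep : ∀ u v, u ≠ v → ∃ w, G.Adj u w ∧ D u v = D w v + 1)
    (hlip : ∀ u w v, G.Adj u w → D u v ≤ D w v + 1) (u v : V) :
    G.Reachable u v ∧ G.dist u v = D u v := by
  have h1 : ∀ (n : ℕ) (u v : V), D u v = n → ∃ p : G.Walk u v, p.length = n := by
    intro n
    induction n with
    | zero =>
      intro u v h
      by_cases huv : u = v
      · subst huv
        exact ⟨SimpleGraph.Walk.nil, rfl⟩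
      · obtain ⟨w, _, h2⟩ := hstep u v huv
        omega
    | succ n ih =>
      intro u v h
      have huv : u ≠ v := by
        rintro rfl
        rw [h0] at h
        omega
      obtain ⟨w, hw, h2⟩ := hstep u v huv
      obtain ⟨p, hp⟩ := ih w v (by omega)
      exact ⟨SimpleGraph.Walk.cons hw p, by simp [hp]⟩
  have h2 : ∀ (u v : V) (p : G.Walk u v), D u v ≤ p.length := by
    intro u v p
    induction p with
    | nil => simp [h0]
    | cons h p ih =>
      simp only [SimpleGraph.Walk.length_cons]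
      exact (hlip _ _ _ h).trans (by omega)
  obtain ⟨p, hp⟩ := h1 _ u v rfl
  refine ⟨⟨p⟩, le_antisymm ?_ ?_⟩
  · rw [← hp]
    exact SimpleGraph.dist_le p
  · obtain ⟨q, hq⟩ := SimpleGraph.Reachable.exists_walk_length_eq_dist ⟨p⟩
    rw [← hq]
    exact h2 u v q

/-- The matrix `(M (c u) (c v))` as a product through the classes. -/
theorem blowup_mul {n r : ℕ} (c : Fin n → Fin r) (M : Matrix (Fin r) (Fin r) ℤ) :
    (Matrix.of fun (u : Fin n) (i : Fin r) => if c u = i then (1 : ℤ) else 0) *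
      (M * (Matrix.of fun (u : Fin n) (i : Fin r) => if c u = i then (1 : ℤ) else 0)ᵀ) =
      Matrix.of fun u v => M (c u) (c v) := by
  ext u v
  simp [Matrix.mul_apply]

theorem charpoly_blowup {n r : ℕ} (hr : r ≤ n) (c : Fin n → Fin r)
    (M : Matrix (Fin r) (Fin r) ℤ) :
    (Matrix.of fun (u v : Fin n) => M (c u) (c v)).charpoly =
      X ^ (n - r) * (Matrix.of fun i j => M i j *
        ((Finset.univ.filter fun u => c u = j).card : ℤ)).charpoly := by
  rw [← blowup_mul, Matrix.charpoly_mul_comm_of_le _ _ (by simpa using hr)]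
  congr 2
  · simp
  · ext i j
    simp only [Matrix.mul_apply, Matrix.transpose_apply, Matrix.of_apply, mul_ite, mul_one,
      mul_zero, Finset.sum_ite_eq, Finset.mem_univ, if_true]
    rw [Finset.card_filter, Nat.cast_sum, Finset.mul_sum]
    refine Finset.sum_congr rfl fun u _ => ?_
    by_cases h : c u = j
    · simp [h]
    · simp [h]

/-- Classes of the first graph: sizes 1, 14, 2, 3. -/
def c1 : Fin 20 → Fin 4 := ![0, 1, 1, 1, 1, 1, 1, 1, 1, 1, 1, 1, 1, 1, 1, 2, 2, 3, 3, 3]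

/-- Classes of the second graph: sizes 2, 8, 8, 1, 1. -/
def c2 : Fin 20 → Fin 5 := ![0, 0, 1, 1, 1, 1, 1, 1, 1, 1, 2, 2, 2, 2, 2, 2, 2, 2, 3, 4]

def m1 : Fin 4 → Fin 4 → ℕ := ![![2, 1, 2, 3], ![1, 2, 1, 2], ![2, 1, 2, 1], ![3, 2, 1, 2]]

def m2 : Fin 5 → Fin 5 → ℕ :=
  ![![2, 1, 2, 1, 2], ![1, 2, 2, 2, 1], ![2, 2, 2, 1, 1], ![1, 2, 1, 2, 1], ![2, 1, 1, 1, 2]]

/-- The bipartite graph. -/
def G1 : SimpleGraph (Fin 20) where
  Adj u v := m1 (c1 u) (c1 v) = 1
  symm := ⟨by
    have h : ∀ i j, m1 i j = m1 j i := by decide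
    intro u v huv
    rw [h]
    exact huv⟩
  loopless := ⟨by
    have h : ∀ i, m1 i i ≠ 1 := by decide
    intro u hu
    exact h _ hu⟩

/-- The non-bipartite graph. -/
def G2 : SimpleGraph (Fin 20) where
  Adj u v := m2 (c2 u) (c2 v) = 1
  symm := ⟨by
    have h : ∀ i j, m2 i j = m2 j i := by decide
    intro u v huv
    rw [h]
    exact huv⟩
  loopless := ⟨by
    have h : ∀ i, m2 i i ≠ 1 := by decide
    intro u hu
    exact h _ hu⟩

def D1 (u v : Fin 20) : ℕ := if u = v then 0 else m1 (c1 u) (c1 v)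

def D2 (u v : Fin 20) : ℕ := if u = v then 0 else m2 (c2 u) (c2 v)

theorem dist1 (u v : Fin 20) : G1.Reachable u v ∧ G1.dist u v = D1 u v := by
  refine dist_of_certificate G1 D1 (by decide) ?_ ?_ u v
  · have h : ∀ u v : Fin 20, u ≠ v → ∃ w, m1 (c1 u) (c1 w) = 1 ∧ D1 u v = D1 w v + 1 := by
      decide +kernel
    exact h
  · have h : ∀ u w v : Fin 20, m1 (c1 u) (c1 w) = 1 → D1 u v ≤ D1 w v + 1 := by
      decide +kernel
    exact h

theorem dist2 (u v : Fin 20) : G2.Reachable u v ∧ G2.dist u v = D2 u v := by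
  refine dist_of_certificate G2 D2 (by decide) ?_ ?_ u v
  · have h : ∀ u v : Fin 20, u ≠ v → ∃ w, m2 (c2 u) (c2 w) = 1 ∧ D2 u v = D2 w v + 1 := by
      decide +kernel
    exact h
  · have h : ∀ u w v : Fin 20, m2 (c2 u) (c2 w) = 1 → D2 u v ≤ D2 w v + 1 := by
      decide +kernel
    exact h

def M1 : Matrix (Fin 4) (Fin 4) ℤ := Matrix.of fun i j => (m1 i j : ℤ)

def M2 : Matrix (Fin 5) (Fin 5) ℤ := Matrix.of fun i j => (m2 i j : ℤ)

theorem distMatrix1 : distMatrix G1 =
    ((Matrix.of fun (u v : Fin 20) => M1 (c1 u) (c1 v)) - scalar (Fin 20) 2).map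
      (Int.castRingHom ℝ) := by
  have h : ∀ u v : Fin 20, (D1 u v : ℤ) = M1 (c1 u) (c1 v) - (if u = v then 2 else 0) := by
    decide +kernel
  ext u v
  have h2 := h u v
  simp only [distMatrix, Matrix.of_apply, (dist1 u v).2, Matrix.map_apply, Matrix.sub_apply,
    Matrix.scalar_apply, Matrix.diagonal_apply]
  rw [← h2]
  simp

theorem distMatrix2 : distMatrix G2 =
    ((Matrix.of fun (u v : Fin 20) => M2 (c2 u) (c2 v)) - scalar (Fin 20) 2).map
      (Int.castRingHom ℝ) := by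
  have h : ∀ u v : Fin 20, (D2 u v : ℤ) = M2 (c2 u) (c2 v) - (if u = v then 2 else 0) := by
    decide +kernel
  ext u v
  have h2 := h u v
  simp only [distMatrix, Matrix.of_apply, (dist2 u v).2, Matrix.map_apply, Matrix.sub_apply,
    Matrix.scalar_apply, Matrix.diagonal_apply]
  rw [← h2]
  simp

theorem quot1 : (Matrix.of fun i j => M1 i j *
    ((Finset.univ.filter fun u => c1 u = j).card : ℤ)) =
    !![2, 14, 4, 9; 1, 28, 2, 6; 2, 14, 4, 3; 3, 28, 2, 6] := by
  have h : ∀ i j : Fin 4, (m1 i j) * ((Finset.univ.filter fun u => c1 u = j).card) =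
      (![![2, 14, 4, 9], ![1, 28, 2, 6], ![2, 14, 4, 3], ![3, 28, 2, 6]] : Fin 4 → Fin 4 → ℕ)
        i j := by
    decide +kernel
  ext i j
  have h2 := h i j
  simp only [Matrix.of_apply, M1]
  rw [← Nat.cast_mul, h2]
  fin_cases i <;> fin_cases j <;> rfl

theorem quot2 : (Matrix.of fun i j => M2 i j *
    ((Finset.univ.filter fun u => c2 u = j).card : ℤ)) =
    !![4, 8, 16, 1, 2; 2, 16, 16, 2, 1; 4, 16, 16, 1, 1; 2, 16, 8, 2, 1; 4, 8, 8, 1, 2] := by
  have h : ∀ i j : Fin 5, (m2 i j) * ((Finset.univ.filter fun u => c2 u = j).card) =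
      (![![4, 8, 16, 1, 2], ![2, 16, 16, 2, 1], ![4, 16, 16, 1, 1], ![2, 16, 8, 2, 1],
        ![4, 8, 8, 1, 2]] : Fin 5 → Fin 5 → ℕ) i j := by
    decide +kernel
  ext i j
  have h2 := h i j
  simp only [Matrix.of_apply, M2]
  rw [← Nat.cast_mul, h2]
  fin_cases i <;> fin_cases j <;> rfl

theorem det4 {R : Type} [CommRing R] (a b c d e f g h i j k l m n o p : R) :
    (!![a, b, c, d; e, f, g, h; i, j, k, l; m, n, o, p] : Matrix (Fin 4) (Fin 4) R).det =
    a * (!![f, g, h; j, k, l; n, o, p] : Matrix (Fin 3) (Fin 3) R).det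
    - b * (!![e, g, h; i, k, l; m, o, p] : Matrix (Fin 3) (Fin 3) R).det
    + c * (!![e, f, h; i, j, l; m, n, p] : Matrix (Fin 3) (Fin 3) R).det
    - d * (!![e, f, g; i, j, k; m, n, o] : Matrix (Fin 3) (Fin 3) R).det := by
  rw [Matrix.det_succ_row_zero, Fin.sum_univ_four]
  have e0 : (!![a, b, c, d; e, f, g, h; i, j, k, l; m, n, o, p] :
      Matrix (Fin 4) (Fin 4) R).submatrix Fin.succ (Fin.succAbove 0) = !![f, g, h; j, k, l; n, o, p] := by
    ext x y; fin_cases x <;> fin_cases y <;> rfl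
  have e1 : (!![a, b, c, d; e, f, g, h; i, j, k, l; m, n, o, p] :
      Matrix (Fin 4) (Fin 4) R).submatrix Fin.succ (Fin.succAbove 1) = !![e, g, h; i, k, l; m, o, p] := by
    ext x y; fin_cases x <;> fin_cases y <;> rfl
  have e2 : (!![a, b, c, d; e, f, g, h; i, j, k, l; m, n, o, p] :
      Matrix (Fin 4) (Fin 4) R).submatrix Fin.succ (Fin.succAbove 2) = !![e, f, h; i, j, l; m, n, p] := by
    ext x y; fin_cases x <;> fin_cases y <;> rfl
  have e3 : (!![a, b, c, d; e, f, g, h; i, j, k, l; m, n, o, p] :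
      Matrix (Fin 4) (Fin 4) R).submatrix Fin.succ (Fin.succAbove 3) = !![e, f, g; i, j, k; m, n, o] := by
    ext x y; fin_cases x <;> fin_cases y <;> rfl
  rw [e0, e1, e2, e3]
  simp
  ring
theorem det5 {R : Type} [CommRing R] (a b c d e f g h i j k l m n o p q r s t u v w x y : R) :
    (!![a, b, c, d, e; f, g, h, i, j; k, l, m, n, o; p, q, r, s, t; u, v, w, x, y] : Matrix (Fin 5) (Fin 5) R).det =
    a * (!![g, h, i, j; l, m, n, o; q, r, s, t; v, w, x, y] : Matrix (Fin 4) (Fin 4) R).det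
    - b * (!![f, h, i, j; k, m, n, o; p, r, s, t; u, w, x, y] : Matrix (Fin 4) (Fin 4) R).det
    + c * (!![f, g, i, j; k, l, n, o; p, q, s, t; u, v, x, y] : Matrix (Fin 4) (Fin 4) R).det
    - d * (!![f, g, h, j; k, l, m, o; p, q, r, t; u, v, w, y] : Matrix (Fin 4) (Fin 4) R).det
    + e * (!![f, g, h, i; k, l, m, n; p, q, r, s; u, v, w, x] : Matrix (Fin 4) (Fin 4) R).det := by
  rw [Matrix.det_succ_row_zero, Fin.sum_univ_five]
  have e0 : (!![a, b, c, d, e; f, g, h, i, j; k, l, m, n, o; p, q, r, s, t; u, v, w, x, y] : Matrix (Fin 5) (Fin 5) R).submatrix Fin.succ (Fin.succAbove 0) = !![g, h, i, j; l, m, n, o; q, r, s, t; v, w, x, y] := by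
    ext x y; fin_cases x <;> fin_cases y <;> rfl
  have e1 : (!![a, b, c, d, e; f, g, h, i, j; k, l, m, n, o; p, q, r, s, t; u, v, w, x, y] : Matrix (Fin 5) (Fin 5) R).submatrix Fin.succ (Fin.succAbove 1) = !![f, h, i, j; k, m, n, o; p, r, s, t; u, w, x, y] := by
    ext x y; fin_cases x <;> fin_cases y <;> rfl
  have e2 : (!![a, b, c, d, e; f, g, h, i, j; k, l, m, n, o; p, q, r, s, t; u, v, w, x, y] : Matrix (Fin 5) (Fin 5) R).submatrix Fin.succ (Fin.succAbove 2) = !![f, g, i, j; k, l, n, o; p, q, s, t; u, v, x, y] := by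
    ext x y; fin_cases x <;> fin_cases y <;> rfl
  have e3 : (!![a, b, c, d, e; f, g, h, i, j; k, l, m, n, o; p, q, r, s, t; u, v, w, x, y] : Matrix (Fin 5) (Fin 5) R).submatrix Fin.succ (Fin.succAbove 3) = !![f, g, h, j; k, l, m, o; p, q, r, t; u, v, w, y] := by
    ext x y; fin_cases x <;> fin_cases y <;> rfl
  have e4 : (!![a, b, c, d, e; f, g, h, i, j; k, l, m, n, o; p, q, r, s, t; u, v, w, x, y] : Matrix (Fin 5) (Fin 5) R).submatrix Fin.succ (Fin.succAbove 4) = !![f, g, h, i; k, l, m, n; p, q, r, s; u, v, w, x] := by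
    ext x y; fin_cases x <;> fin_cases y <;> rfl
  rw [e0, e1, e2, e3, e4]
  simp
  ring
theorem cp1 : (!![2, 14, 4, 9; 1, 28, 2, 6; 2, 14, 4, 3; 3, 28, 2, 6] :
    Matrix (Fin 4) (Fin 4) ℤ).charpoly = X ^ 4 - 40 * X ^ 3 + 129 * X ^ 2 + 384 * X - 1008 := by
  have h : Matrix.charmatrix (!![2, 14, 4, 9; 1, 28, 2, 6; 2, 14, 4, 3; 3, 28, 2, 6] :
    Matrix (Fin 4) (Fin 4) ℤ) = !![X - 2, -14, -4, -9; -1, X - 28, -2, -6; -2, -14, X - 4, -3; -3, -28, -2, X - 6] := by
    ext1 i j
    fin_cases i <;> fin_cases j <;> simp [Matrix.charmatrix]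
  rw [Matrix.charpoly, h, det4]
  simp only [Matrix.det_fin_three, Matrix.of_apply, Matrix.cons_val]
  ring
theorem cp2 : (!![4, 8, 16, 1, 2; 2, 16, 16, 2, 1; 4, 16, 16, 1, 1; 2, 16, 8, 2, 1;
    4, 8, 8, 1, 2] : Matrix (Fin 5) (Fin 5) ℤ).charpoly =
    X * (X ^ 4 - 40 * X ^ 3 + 129 * X ^ 2 + 384 * X - 1008) := by
  have h : Matrix.charmatrix (!![4, 8, 16, 1, 2; 2, 16, 16, 2, 1; 4, 16, 16, 1, 1; 2, 16, 8, 2, 1;
    4, 8, 8, 1, 2] : Matrix (Fin 5) (Fin 5) ℤ) = !![X - 4, -8, -16, -1, -2; -2, X - 16, -16, -2, -1; -4, -16, X - 16, -1, -1; -2, -16, -8, X - 2, -1;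
    -4, -8, -8, -1, X - 2] := by
    ext1 i j
    fin_cases i <;> fin_cases j <;> simp [Matrix.charmatrix]
  rw [Matrix.charpoly, h, det5]
  simp only [det4]
  simp only [Matrix.det_fin_three, Matrix.of_apply, Matrix.cons_val]
  ring

theorem charpoly_distMatrix1 : (distMatrix G1).charpoly =
    (((X ^ 16 * (X ^ 4 - 40 * X ^ 3 + 129 * X ^ 2 + 384 * X - 1008) : ℤ[X]).comp
      (X + C 2))).map (Int.castRingHom ℝ) := by
  rw [distMatrix1, Matrix.charpoly_map, Matrix.charpoly_sub_scalar,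
    charpoly_blowup (by norm_num) c1 M1, quot1, cp1]

theorem charpoly_distMatrix2 : (distMatrix G2).charpoly =
    (((X ^ 16 * (X ^ 4 - 40 * X ^ 3 + 129 * X ^ 2 + 384 * X - 1008) : ℤ[X]).comp
      (X + C 2))).map (Int.castRingHom ℝ) := by
  have hx : (X : ℤ[X]) ^ (20 - 5) *
      (X * (X ^ 4 - 40 * X ^ 3 + 129 * X ^ 2 + 384 * X - 1008)) =
      X ^ 16 * (X ^ 4 - 40 * X ^ 3 + 129 * X ^ 2 + 384 * X - 1008) := by
    norm_num
    ring
  rw [distMatrix2, Matrix.charpoly_map, Matrix.charpoly_sub_scalar,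
    charpoly_blowup (by norm_num) c2 M2, quot2, cp2, hx]

/-- The distance spectrum of a connected graph does not determine whether the graph is
bipartite: there are two connected graphs on 20 vertices with the same distance spectrum, the
first bipartite and the second not. -/
theorem result : ∃ G H : SimpleGraph (Fin 20), G.Connected ∧ H.Connected ∧
    distSpectrum G = distSpectrum H ∧ G.IsBipartite ∧ ¬ H.IsBipartite := by
  refine ⟨G1, G2, ?_, ?_, ?_, ?_, ?_⟩
  · exact (SimpleGraph.connected_iff _).2 ⟨fun u v => (dist1 u v).1, ⟨0⟩⟩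
  · exact (SimpleGraph.connected_iff _).2 ⟨fun u v => (dist2 u v).1, ⟨0⟩⟩
  · rw [distSpectrum_eq_roots, distSpectrum_eq_roots, charpoly_distMatrix1,
      charpoly_distMatrix2]
  · refine ⟨SimpleGraph.Coloring.mk (fun u => ((![0, 1, 0, 1] : Fin 4 → Fin 2) (c1 u))) ?_⟩
    have h : ∀ i j : Fin 4, m1 i j = 1 →
        (![0, 1, 0, 1] : Fin 4 → Fin 2) i ≠ (![0, 1, 0, 1] : Fin 4 → Fin 2) j := by
      decide
    intro u v huv
    exact h _ _ huv
  · rintro ⟨c⟩
    have h1 : G2.Adj 10 18 := by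
      change m2 (c2 10) (c2 18) = 1
      decide
    have h2 : G2.Adj 10 19 := by
      change m2 (c2 10) (c2 19) = 1
      decide
    have h3 : G2.Adj 18 19 := by
      change m2 (c2 18) (c2 19) = 1
      decide
    have e1 := c.valid h1
    have e2 := c.valid h2
    have e3 := c.valid h3
    generalize c 10 = x at *
    generalize c 18 = y at *
    generalize c 19 = z at *
    omega

end Pool.Agent.Results.MP_69260a_co.CospectralPair
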